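import Pool.Agent.P.MP_a11f68_mp.Q.Defs
import Pool.Agent.P.MP_a11f68_mp.Q.Final

open Pool.Agent.P.MP_a11f68_mp MeasureTheory

/-- The exact exceptional set. For a complex number `μ` the following are equivalent: some bounded
measurable complex potential on the torus has a reducible Fermi variety (Floquet form) at energy
`[V] + μ`; some `C²` complex periodic potential has one (classical solutions); some real-analytic
real periodic potential has one; `μ = 4 π d` for a natural number `d`. -/
theorem Pool.Agent.Results.MP_a11f68_mp.ExceptionalEnergies.result (μ : ℂ) : List.TFAE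
    [∃ V : UnitAddTorus (Fin 2) → ℂ, MemLp V ⊤ volume ∧
        ¬ IrreducibleModPeriodicity (weakFermi V ((∫ x, V x) + μ)),
      ∃ V : EuclideanSpace ℝ (Fin 2) → ℂ, ContDiff ℝ 2 V ∧
        (∀ (n : Fin 2 → ℤ) (x : EuclideanSpace ℝ (Fin 2)), V (x + latticePoint n) = V x) ∧
        ¬ IrreducibleModPeriodicity (fermiVariety V (average V + μ)),
      ∃ V : EuclideanSpace ℝ (Fin 2) → ℝ, AnalyticOnNhd ℝ V Set.univ ∧
        (∀ (n : Fin 2 → ℤ) (x : EuclideanSpace ℝ (Fin 2)), V (x + latticePoint n) = V x) ∧
        ¬ IrreducibleModPeriodicity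
          (fermiVariety (fun x => (V x : ℂ)) (average (fun x => (V x : ℂ)) + μ)),
      ∃ d : ℕ, μ = 4 * (Real.pi : ℂ) * (d : ℂ)] :=
  Pool.Agent.P.MP_a11f68_mp.Q.exceptional_set μ
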