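import Pool.Agent.P.MP_a11f68_mp.Q.Defs
import Pool.Agent.P.MP_a11f68_mp.R.Defs
import Pool.Agent.P.MP_a11f68_mp.R.Final

open Pool.Agent.P.MP_a11f68_mp MeasureTheory

/-- The reducible Fermi varieties. For a bounded measurable complex potential on the torus the
Fermi variety at energy `lam` is reducible modulo periodicity exactly when `lam = [V] + 4 π d` for
a natural number `d` and the variety is the union of two elliptic Calogero-Moser curves given by
monic polynomials of degree `d` with the parity of `d`. -/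
theorem Pool.Agent.Results.MP_a11f68_mp.ReducibleCurves.result
    (V : UnitAddTorus (Fin 2) → ℂ) (hV : MemLp V ⊤ volume) (lam : ℂ) :
    ¬ IrreducibleModPeriodicity (weakFermi V lam) ↔
      ∃ (d : ℕ) (H₁ H₂ : Polynomial ℂ), lam = (∫ x, V x) + 4 * (Real.pi : ℂ) * (d : ℂ) ∧
        (∀ H ∈ [H₁, H₂], H.Monic ∧ H.natDegree = d ∧
          ∀ x : ℂ, H.eval (-x) = (-1) ^ d * H.eval x) ∧
        weakFermi V lam =
          {k | cmEquation H₁ (k 0 + k 1 * Complex.I) (k 0 - k 1 * Complex.I) = 0 ∨
            cmEquation H₂ (k 0 - k 1 * Complex.I) (k 0 + k 1 * Complex.I) = 0} :=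
  Pool.Agent.P.MP_a11f68_mp.R.reducible_curves V hV lam
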